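import Pool.Agent.X178.Two.Main

/-! There is a connected compact Riemannian symmetric space `M` of dimension five, the unit rank one
tensors in `ℝ² ⊗ ℝ³ ⊗ ℝ³`, whose two-number is `8` while `dim H(M; ℤ/2) ≥ 10`. -/

set_option autoImplicit false

open Set Metric Bundle Manifold
open scoped ContDiff ENNReal

namespace Pool.Agent.Results.MP_efd99a_gt.RankOneTensors

open Pool.Agent.X178.Two
open Pool.Agent.Helper381 (totalBetti)

attribute [local instance] Emb.rb

/-- distances in the ambient space are at most the Riemannian distances -/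
theorem lower (x y : Seg.M) :
    dist (Seg.inc x) (Seg.inc y) ≤ Seg.mM.toPseudoMetricSpace.dist x y := by
  have h := Seg.lower x y
  have hedist : riemannianEDist 𝓘(ℝ, EE 5) x y =
      Seg.mM.toPseudoMetricSpace.toPseudoEMetricSpace.edist x y := rfl
  rw [hedist] at h
  let _ : MetricSpace Seg.M := Seg.mM
  have h2 : edist (Seg.inc x) (Seg.inc y) ≤ edist x y := h
  rw [edist_dist, edist_dist, ENNReal.ofReal_le_ofReal_iff dist_nonneg] at h2
  exact h2

/-- the maps induced by symmetric involutions are isometries -/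
theorem isometry_map (a : SI 2) (b c : SI 3) :
    @Isometry Seg.M Seg.M Seg.mM.toPseudoMetricSpace.toPseudoEMetricSpace
      Seg.mM.toPseudoMetricSpace.toPseudoEMetricSpace (Seg.map (op a b c) (op_mem a b c)) := by
  intro x y
  exact Seg.riemannianEDist_map (op a b c) (op a b c) (op_mem a b c) (op_mem a b c)
    (fun w => op_op a b c w) x y

/-- the reflection at a point has differential minus the identity -/
theorem mfderiv_refl (x : EE 2) (y z : EE 3) (hx : ‖x‖ = 1) (hy : ‖y‖ = 1) (hz : ‖z‖ = 1)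
    (T : Seg.M) (hT : Seg.inc T = ten x y z) :
    mfderiv 𝓘(ℝ, EE 5) 𝓘(ℝ, EE 5) (Seg.map (op (refl x hx) (refl y hy) (refl z hz))
      (op_mem (refl x hx) (refl y hy) (refl z hz))) T = -ContinuousLinearMap.id ℝ (EE 5) := by
  apply Seg.mfderiv_map _ _ T _ 7
  · rintro w ⟨x', y', z', hx', hy', hz', rfl⟩
    rw [hT]
    exact second_order hx hy hz hx' hy' hz'
  · rw [hT, op_ten, mv_refl, mv_refl, mv_refl]
    have s1 : ∀ {m : ℕ} {u : EE m}, ‖u‖ = 1 → (2 * inner ℝ u u) • u - u = u := by
      intro m u hu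
      rw [real_inner_self_eq_norm_sq, hu]
      module
    rw [s1 hx, s1 hy, s1 hz]

theorem aux : letI : MetricSpace Seg.M := Seg.mM
    (∃ s : Seg.M → Seg.M → Seg.M, IsSymm (E := EE 5) s) ∧
      ∀ s : Seg.M → Seg.M → Seg.M, IsSymm (E := EE 5) s →
        twoNumber s = 8 ∧ 10 ≤ totalBetti (ZMod 2) Seg.M := by
  have hR : @IsRiemannianManifold (EE 5) _ _ (EE 5) _ 𝓘(ℝ, EE 5) Seg.M
      Seg.mM.toPseudoMetricSpace.toUniformSpace.toTopologicalSpace
      Seg.mM.toPseudoMetricSpace.toPseudoEMetricSpace _ _ :=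
    @IsRiemannianManifold.mk (EE 5) _ _ (EE 5) _ 𝓘(ℝ, EE 5) Seg.M
      Seg.mM.toPseudoMetricSpace.toUniformSpace.toTopologicalSpace
      Seg.mM.toPseudoMetricSpace.toPseudoEMetricSpace _ _ (fun x y => rfl)
  have hcc := Seg.ccb
  exact @main_abs Seg.M Seg.mM _ _ _ _ _ hcc hR Seg.inc Seg.inc_injective (fun x => x.2)
    (fun w hw => ⟨⟨w, hw⟩, rfl⟩) lower (fun a b c => Seg.map (op a b c) (op_mem a b c))
    isometry_map (fun a b c x => rfl) mfderiv_refl

/-- A smooth Riemannian metric on the smooth manifold `M` of dimension `n`: a smooth family of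
inner products on the tangent spaces of `M`. -/
abbrev SmoothMetric (n : ℕ) (M : Type) [TopologicalSpace M]
    [ChartedSpace (EuclideanSpace ℝ (Fin n)) M] [IsManifold (𝓡 n) ∞ M] :=
  ContMDiffRiemannianMetric (𝓡 n) ∞ (EuclideanSpace ℝ (Fin n))
    (fun x : M => TangentSpace (𝓡 n) x)

/-- The distance of `M` is the Riemannian distance of the smooth Riemannian metric `g`, that is
the infimum of the `g`-lengths of the `C^1` paths between two points. -/
def DistIsRiemannian {n : ℕ} {M : Type} [MetricSpace M]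
    [ChartedSpace (EuclideanSpace ℝ (Fin n)) M] [IsManifold (𝓡 n) ∞ M]
    (g : SmoothMetric n M) : Prop :=
  letI : RiemannianBundle (fun x : M => TangentSpace (𝓡 n) x) := ⟨g.toRiemannianMetric⟩
  IsRiemannianManifold (𝓡 n) M

/-- There is a connected compact Riemannian symmetric space `M` of dimension `5` with
`#₂ M = 8 < 10 ≤ dim H(M; ℤ/2)`. -/
theorem result : ∃ (M : Type) (_ : MetricSpace M)
    (_ : ChartedSpace (EuclideanSpace ℝ (Fin 5)) M) (_ : IsManifold (𝓡 5) ∞ M)
    (g : SmoothMetric 5 M), DistIsRiemannian g ∧ CompactSpace M ∧ ConnectedSpace M ∧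
    (∃ s : M → M → M, IsSymm (E := EuclideanSpace ℝ (Fin 5)) s) ∧
      ∀ s : M → M → M, IsSymm (E := EuclideanSpace ℝ (Fin 5)) s →
        twoNumber s = 8 ∧ 10 ≤ totalBetti (ZMod 2) M := by
  have hR : @IsRiemannianManifold (EE 5) _ _ (EE 5) _ 𝓘(ℝ, EE 5) Seg.M
      Seg.mM.toPseudoMetricSpace.toUniformSpace.toTopologicalSpace
      Seg.mM.toPseudoMetricSpace.toPseudoEMetricSpace _ _ :=
    @IsRiemannianManifold.mk (EE 5) _ _ (EE 5) _ 𝓘(ℝ, EE 5) Seg.M
      Seg.mM.toPseudoMetricSpace.toUniformSpace.toTopologicalSpace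
      Seg.mM.toPseudoMetricSpace.toPseudoEMetricSpace _ _ (fun x y => rfl)
  exact ⟨Seg.M, Seg.mM, inferInstance, inferInstance, Seg.g, hR, inferInstance,
    inferInstance, aux⟩

end Pool.Agent.Results.MP_efd99a_gt.RankOneTensors
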